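import Pool.Agent.H30.FCB.StE
import Pool.Agent.H30.FCB.Basic

open AlgebraicGeometry CategoryTheory

namespace FCB

namespace AMP

lemma not_dvd_mono {R ι C : Type} {r : ℕ} [CommRing R] [IsDomain R] [Algebra ℂ R] [Fintype ι]
    (D : Cox R ι C r) (n : ι → ℕ) (π : R) (hπ : Prime π)
    (h : ∀ j, n j ≠ 0 → ¬ π ∣ D.X j) : ¬ π ∣ D.mono n := by
  intro hd
  rw [Cox.mono, hπ.dvd_finsetProd_iff] at hd
  obtain ⟨j, _, hj⟩ := hd
  by_cases h0 : n j = 0
  · rw [h0, pow_zero] at hj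
    exact hπ.not_dvd_one hj
  · exact h j h0 (hπ.dvd_of_dvd_pow hj)

lemma dvd_mono {R ι C : Type} {r : ℕ} [CommRing R] [IsDomain R] [Algebra ℂ R] [Fintype ι]
    (D : Cox R ι C r) (n : ι → ℕ) (j : ι) (h : n j ≠ 0) : D.X j ∣ D.mono n := by
  rw [Cox.mono]
  exact (dvd_pow_self _ h).trans (Finset.dvd_prod_of_mem (fun j => D.X j ^ n j)
    (Finset.mem_univ j))

/-- `co c j` with `j ∈ u c` is not in a prime ideal of the chart ring. -/
lemma co_notMem {R ι C : Type} {r : ℕ} [CommRing R] [IsDomain R] [Algebra ℂ R] [Fintype ι]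
    (hCH : S_CHEL) (D : Cox R ι C r) (h : D.Laws) (c : C) (P : Ideal (D.chart c))
    (hP : P.IsPrime) (j : ι) (hj : j ∈ D.u c) (a : D.chart c)
    (ha : (a : FractionRing R) = D.co c j) : a ∉ P := by
  classical
  intro haP
  have h1 := hCH R ι C r D h c
  have hn : ∀ i, ((D.σ c (D.deg j) - Pi.single j 1 : ι → ℤ)) i ≠ 0 → i ∈ D.u c := by
    intro i hi
    by_cases hij : i = j
    · rw [hij]; exact hj
    · rw [Pi.sub_apply, Pi.single_eq_of_ne hij, sub_zero] at hi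
      exact h.σ_supp c _ i hi
  have hw : D.wtZ (D.σ c (D.deg j) - Pi.single j 1 : ι → ℤ) = 0 := by
    rw [D.wtZ_sub, D.wtZ_single, h.σ_wt, one_smul, sub_self]
  have h2 := h1.2.1 _ hn hw
  have h3 : a * ⟨_, h2⟩ = 1 := by
    apply Subtype.ext
    simp only [MulMemClass.coe_mul, OneMemClass.coe_one, ha]
    have e1 : algebraMap R (FractionRing R) (D.X j) = D.monoZ (Pi.single j 1) := by
      rw [Cox.monoZ_single, zpow_one]
    rw [Cox.co, e1, ← h.monoZ_add, ← h.monoZ_add]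
    have e2 : (Pi.single j 1 : ι → ℤ) + -(D.σ c (D.deg j)) +
      (D.σ c (D.deg j) - Pi.single j 1) = 0 := by abel
    rw [e2, Cox.monoZ_zero]
  exact hP.ne_top ((Ideal.eq_top_iff_one _).2 (h3 ▸ P.mul_mem_right _ haP))

end AMP

theorem amp (hPRE1 : S_PRE1) (hPRE2 : S_PRE2) (hPD1 : S_PD1) (hPD2 : S_PD2) (hPD3 : S_PD3)
    (hCHEL : S_CHEL) : S_AMP := by
  intro R ι C r _ _ _ _ _ _ D h M K E hE x
  obtain ⟨c, hxc⟩ := M.cov x
  have hmem : D.mono (D.ν c) ∈ D.gr (D.d c • D.L) := by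
    rw [← h.ν_wt c]
    exact D.mono_mem _
  obtain ⟨E', hE0, hcls, hmul⟩ := K.divh _ _ hmem (h.mono_ne _)
  refine ⟨D.d c, E', M.U c, h.dpos c, ?_, hE0, M.aff c, hxc, ?_⟩
  · rw [K.ker, map_nsmul, hE, hcls]
  · intro y
    constructor
    · intro hy p hp
      obtain ⟨π, g, hπ⟩ := hPD1 R ι C r D h M p
      have hpU : p.1 ∈ M.U c := hp.mem_open (M.U c).2 hy
      have h1 := ((hPD3 R ι C r D h M p p π π g g hπ hπ).2 c).1 hpU
      rw [hmul p π g hπ]
      have h2 : ¬ π ∣ D.mono (D.ν c) :=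
        AMP.not_dvd_mono D _ π hπ.1 fun j hj => h1 j ((h.ν_supp c j).1 hj)
      rw [multiplicity_eq_zero.2 h2]
      rfl
    · intro hy
      by_contra hyc
      obtain ⟨c', hyc'⟩ := M.cov y
      have h1 := (not_congr (M.inter c' c y hyc')).1 hyc
      push Not at h1
      obtain ⟨j, hj, hju⟩ := h1
      have hco : D.co c' j ∈ D.chart c' := (hCHEL R ι C r D h c').1 _ _ (D.X_mem j)
      have hpre := hPRE1 R ι C r D M.toPreModel c' y hyc'
      have hin : (⟨D.co c' j, hco⟩ : D.chart c') ∈ M.pr c' y hyc' := (hpre.2.2.1 _).2 hju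
      obtain ⟨p, hp⟩ := hPD2 R ι C r D h M (D.X j) (D.deg j) (h.prime j) (D.X_mem j)
      have hpc' : p.1 ∈ M.U c' := by
        rw [(hPD3 R ι C r D h M p p _ _ _ _ hp hp).2 c']
        intro l hl hdvd
        have hass : Associated (D.X j) (D.X l) := (h.prime j).associated_of_dvd (h.prime l) hdvd
        have hjl : j = l := by
          by_contra hne
          exact h.nonassoc j l hne hass
        subst hjl
        exact AMP.co_notMem hCHEL D h c' _ hpre.1 j hl _ rfl hin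
      have hle : M.pr c' p.1 hpc' ≤ M.pr c' y hyc' := by
        intro a ha
        obtain ⟨b, hb⟩ := (hp.2.2 c' hpc' a).1 ha
        have : a = b * ⟨D.co c' j, hco⟩ := Subtype.ext hb
        rw [this]
        exact Ideal.mul_mem_left _ _ hin
      have hsp : p.1 ⤳ y := ((hPRE2 R ι C r D M.toPreModel c').2.1 p.1 y hpc' hyc').2 hle
      have h0 := hy p hsp
      rw [hmul p _ _ hp] at h0
      have h3 : multiplicity (D.X j) (D.mono (D.ν c)) ≠ 0 :=
        multiplicity_ne_zero.2 (AMP.dvd_mono D _ j ((h.ν_supp c j).2 hj))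
      exact h3 (by exact_mod_cast h0)

end FCB
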