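import Pool.Agent.H30.FCB.StE
import Pool.Agent.H30.FCB.Basic

open AlgebraicGeometry CategoryTheory

namespace FCB

namespace FIBG

section

variable {R ι C : Type} {r : ℕ} [CommRing R] [IsDomain R] [Algebra ℂ R] [Fintype ι]
  {R' ι' C' : Type} {r' : ℕ} [CommRing R'] [IsDomain R'] [Algebra ℂ R'] [Fintype ι']
  {D : Cox R ι C r} {D' : Cox R' ι' C' r'} {M : PreModel D} {M' : PreModel D'}
  {Φ : FractionRing R' →+* FractionRing R} {τ : C → C'} {f : M.X ⟶ M'.X}

lemma emb_inj (M : PreModel D) (x : M.X) (s t : M.X.presheaf.stalk x)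
    (h : M.emb (algebraMap _ M.X.functionField s) = M.emb (algebraMap _ M.X.functionField t)) :
    s = t :=
  IsFractionRing.injective (M.X.presheaf.stalk x) M.X.functionField (M.emb.injective h)

lemma regAt_map (hf : IsMor M M' Φ τ f) (x : M.X) (a : FractionRing R')
    (h : M'.regAt (f x) a) : M.regAt x (Φ a) := by
  obtain ⟨s, hs⟩ := h
  exact ⟨(f.stalkMap x).hom s, by rw [hf.stalk, hs]⟩

lemma unitAt_iff (hf : IsMor M M' Φ τ f) (x : M.X) (a : FractionRing R')
    (h : M'.regAt (f x) a) : M'.unitAt (f x) a ↔ M.unitAt x (Φ a) := by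
  obtain ⟨s, hs⟩ := h
  constructor
  · rintro ⟨s', hs', hs''⟩
    exact ⟨(f.stalkMap x).hom s', hs'.map _, by rw [hf.stalk, hs'']⟩
  · rintro ⟨t, ht, ht'⟩
    have h1 : t = (f.stalkMap x).hom s := by
      apply emb_inj M x
      rw [hf.stalk, ht', hs]
    refine ⟨s, ?_, hs⟩
    rw [h1] at ht
    exact isUnit_of_map_unit (f.stalkMap x).hom s ht

lemma chart_of_reg (hPRE1 : S_PRE1) (hPRE2 : S_PRE2) (M : PreModel D) (c : C)
    (g : FractionRing R) (h : ∀ x ∈ M.U c, M.regAt x g) : g ∈ D.chart c := by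
  let I : Ideal (D.chart c) :=
    { carrier := {b | g * (b : FractionRing R) ∈ D.chart c}
      add_mem' := by
        intro a b ha hb
        simp only [Set.mem_ofPred_eq, AddMemClass.coe_add, mul_add] at *
        exact add_mem ha hb
      zero_mem' := by simp
      smul_mem' := by
        intro a b hb
        simp only [Set.mem_ofPred_eq, smul_eq_mul, MulMemClass.coe_mul] at *
        have : g * ((a : FractionRing R) * b) = a * (g * b) := by ring
        rw [this]
        exact mul_mem a.2 hb }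
  by_cases hI : I = ⊤
  · have h1 : (1 : D.chart c) ∈ I := by rw [hI]; trivial
    have h2 : g * ((1 : D.chart c) : FractionRing R) ∈ D.chart c := h1
    simpa using h2
  · exfalso
    obtain ⟨P, hP, hIP⟩ := Ideal.exists_le_maximal I hI
    obtain ⟨x, hx, hxP⟩ := (hPRE2 R ι C r D M c).1 P hP.isPrime
    obtain ⟨a, b, hb, hab⟩ := ((hPRE1 R ι C r D M c x hx).2.2.2.1 g).1 (h x hx)
    apply hb
    rw [hxP]
    apply hIP
    change g * (b : FractionRing R) ∈ D.chart c
    rw [hab]
    exact a.2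

lemma exists_hom (hPRE1 : S_PRE1) (hPRE2 : S_PRE2) (hf : IsMor M M' Φ τ f) (c : C) :
    ∃ i : D'.chart (τ c) →+* D.chart c, ∀ a, (i a : FractionRing R) = Φ a := by
  have h : ∀ a : D'.chart (τ c), Φ a ∈ D.chart c := by
    intro a
    refine chart_of_reg hPRE1 hPRE2 M c _ fun x hx => ?_
    exact regAt_map hf x _ ((hPRE1 R' ι' C' r' D' M' (τ c) (f x) (hf.mem c x hx)).2.1 a)
  exact ⟨(Φ.comp (D'.chart (τ c)).val.toRingHom).codRestrict (D.chart c) h, fun a => rfl⟩

lemma pr_comap (hPRE1 : S_PRE1) (hf : IsMor M M' Φ τ f) (c : C)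
    (i : D'.chart (τ c) →+* D.chart c) (hi : ∀ a, (i a : FractionRing R) = Φ a)
    (x : M.X) (hx : x ∈ M.U c) :
    M'.pr (τ c) (f x) (hf.mem c x hx) = (M.pr c x hx).comap i := by
  have h1 := hPRE1 R ι C r D M c x hx
  have h2 := hPRE1 R' ι' C' r' D' M' (τ c) (f x) (hf.mem c x hx)
  ext a
  rw [Ideal.mem_comap, h2.2.2.1, h1.2.2.1, hi, unitAt_iff hf x _ (h2.2.1 a)]

lemma eq_of_pr_eq (hPRE2 : S_PRE2) (M : PreModel D) (c : C) (x y : M.X) (hx : x ∈ M.U c)
    (hy : y ∈ M.U c) (h : M.pr c x hx = M.pr c y hy) : x = y := by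
  have h2 := (hPRE2 R ι C r D M c).2.1
  exact (((h2 x y hx hy).2 h.le).antisymm ((h2 y x hy hx).2 h.ge)).eq

end

lemma tensor_dim {A B k : Type} [CommRing A] [CommRing B] [Algebra A B] [Field k]
    [inst : Algebra A k] (Q : WithBot ℕ∞ → Prop)
    (h : ∀ θ : A →+* k,
      letI := θ.toAlgebra
      Q (ringKrullDim (TensorProduct A B k))) : Q (ringKrullDim (TensorProduct A B k)) := by
  have h1 := h (algebraMap A k)
  have h2 : (algebraMap A k).toAlgebra = inst := Algebra.algebra_ext _ _ fun _ => rfl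
  rw [h2] at h1
  exact h1

lemma topdim_le {F : Type} [TopologicalSpace F] [QuasiSober F] [T0Space F]
    (H : ∀ z : F, ∃ (A : Type) (_ : PartialOrder A) (g : {w : F // w ⤳ z} → A),
      (∀ w w', w'.1 ⤳ w.1 → w ≠ w' → g w' < g w) ∧ Order.krullDim A ≤ 1) :
    topologicalKrullDim F ≤ 1 := by
  let _ : PartialOrder F := specializationOrder F
  have hpt : topologicalKrullDim F = Order.krullDim F :=
    Order.krullDim_eq_of_orderIso irreducibleSetEquivPoints
  rw [hpt, Order.krullDim_eq_iSup_coheight]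
  refine iSup_le fun z => ?_
  rw [Order.coheight_eq_krullDim_Ici]
  obtain ⟨A, _, g, hg, hA⟩ := H z
  refine le_trans ?_ hA
  rw [← Order.krullDim_orderDual (α := A)]
  refine Order.krullDim_le_of_strictMono
    (fun w : Set.Ici z => OrderDual.toDual (g ⟨w.1, w.2⟩)) ?_
  intro w w' hw
  exact hg _ _ hw.le fun h => hw.ne (Subtype.ext (congrArg Subtype.val h))

lemma le_topdim {F : Type} [TopologicalSpace F] [QuasiSober F] [T0Space F]
    (A : Type) [PartialOrder A] (g : A → F)
    (hg : ∀ a b, a < b → g a ⤳ g b ∧ g a ≠ g b) :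
    Order.krullDim A ≤ topologicalKrullDim F := by
  let _ : PartialOrder F := specializationOrder F
  have hpt : topologicalKrullDim F = Order.krullDim F :=
    Order.krullDim_eq_of_orderIso irreducibleSetEquivPoints
  rw [hpt, ← Order.krullDim_orderDual (α := A)]
  refine Order.krullDim_le_of_strictMono (fun a => g (OrderDual.ofDual a)) ?_
  intro a b hab
  have h1 := hg (OrderDual.ofDual b) (OrderDual.ofDual a) hab
  have h2 : g (OrderDual.ofDual a) ≤ g (OrderDual.ofDual b) := h1.1
  exact lt_of_le_of_ne h2 h1.2.symm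

end FIBG

open FIBG in
theorem fibg (hPRE1 : S_PRE1) (hPRE2 : S_PRE2) : S_FIBG := by
  intro R ι C r _ _ _ _ R' ι' C' r' _ _ _ _ D D' M M' Φ τ f hf hcov hle heq
  -- the fibre order sets
  have key : ∀ (c : C) (y : M'.X) (hy : y ∈ M'.U (τ c)),
      ∃ (A : Type) (_ : PartialOrder A) (e : A → M.X),
        (∀ a b, a < b → e a ⤳ e b ∧ e a ≠ e b) ∧ (∀ a, f (e a) = y ∧ e a ∈ M.U c) ∧
        (∀ x, x ∈ M.U c → f x = y → ∃ a, e a = x) ∧
        (∀ a b, e a ⤳ e b → a ≤ b) ∧
        Order.krullDim A ≤ 1 ∧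
        ((∀ (i : D'.chart (τ c) →+* D.chart c), (∀ a, (i a : FractionRing R) = Φ a) →
          ∀ (k : Type) [Field k] (θ : D'.chart (τ c) →+* k),
          letI := i.toAlgebra
          letI := θ.toAlgebra
          ringKrullDim (TensorProduct (D'.chart (τ c)) (D.chart c) k) = 1) →
          Order.krullDim A = 1) := by
    intro c y hy
    obtain ⟨i, hi⟩ := exists_hom hPRE1 hPRE2 hf c
    let _ : Algebra (D'.chart (τ c)) (D.chart c) := i.toAlgebra
    have hprime : (M'.pr (τ c) y hy).IsPrime := (hPRE1 R' ι' C' r' D' M' (τ c) y hy).1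
    let p : PrimeSpectrum (D'.chart (τ c)) := ⟨M'.pr (τ c) y hy, hprime⟩
    have ho := PrimeSpectrum.preimageOrderIsoFiber (D'.chart (τ c)) (D.chart c) p
    have hdim : Order.krullDim
        (PrimeSpectrum.comap (algebraMap (D'.chart (τ c)) (D.chart c)) ⁻¹' {p}) =
        ringKrullDim (TensorProduct (D'.chart (τ c)) (D.chart c) p.asIdeal.ResidueField) := by
      rw [Order.krullDim_eq_of_orderIso ho]
      exact ringKrullDim_eq_of_ringEquiv
        (Algebra.TensorProduct.comm (D'.chart (τ c)) p.asIdeal.ResidueField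
          (D.chart c)).toRingEquiv
    have hpts := (hPRE2 R ι C r D M c).1
    have hsp := (hPRE2 R ι C r D M c).2.1
    let e : PrimeSpectrum.comap (algebraMap (D'.chart (τ c)) (D.chart c)) ⁻¹' {p} → M.X :=
      fun Q => (hpts Q.1.asIdeal Q.1.isPrime).choose
    have he : ∀ Q, ∃ hx : e Q ∈ M.U c, M.pr c (e Q) hx = Q.1.asIdeal :=
      fun Q => (hpts Q.1.asIdeal Q.1.isPrime).choose_spec
    have hle' : ∀ a b, e a ⤳ e b ↔ a ≤ b := by
      intro a b
      obtain ⟨ha, ha'⟩ := he a
      obtain ⟨hb, hb'⟩ := he b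
      rw [hsp _ _ ha hb, ha', hb']
      rfl
    refine ⟨_, inferInstance, e, ?_, ?_, ?_, fun a b => (hle' a b).1, ?_, ?_⟩
    · intro a b hab
      refine ⟨(hle' a b).2 hab.le, fun h => hab.ne (le_antisymm hab.le ((hle' b a).1 ?_))⟩
      rw [h]
    · intro a
      obtain ⟨ha, ha'⟩ := he a
      refine ⟨?_, ha⟩
      apply eq_of_pr_eq hPRE2 M' (τ c) _ _ (hf.mem c _ ha) hy
      rw [pr_comap hPRE1 hf c i hi _ ha, ha']
      have h1 := a.2
      rw [Set.mem_preimage, Set.mem_singleton_iff] at h1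
      exact congrArg PrimeSpectrum.asIdeal h1
    · intro x hx hxy
      have hxp := (hPRE1 R ι C r D M c x hx).1
      refine ⟨⟨⟨M.pr c x hx, hxp⟩, ?_⟩, ?_⟩
      · rw [Set.mem_preimage, Set.mem_singleton_iff]
        apply PrimeSpectrum.ext
        change (M.pr c x hx).comap i = M'.pr (τ c) y hy
        rw [← pr_comap hPRE1 hf c i hi x hx]
        subst hxy
        rfl
      · obtain ⟨ha, ha'⟩ := he ⟨⟨M.pr c x hx, hxp⟩, by
          rw [Set.mem_preimage, Set.mem_singleton_iff]
          apply PrimeSpectrum.ext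
          change (M.pr c x hx).comap i = M'.pr (τ c) y hy
          rw [← pr_comap hPRE1 hf c i hi x hx]
          subst hxy
          rfl⟩
        exact eq_of_pr_eq hPRE2 M c _ _ ha hx ha'
    · rw [hdim]
      exact tensor_dim (fun x => x ≤ 1) fun θ => hle c i hi p.asIdeal.ResidueField θ
    · intro h
      rw [hdim]
      exact tensor_dim (fun x => x = 1) fun θ => h i hi p.asIdeal.ResidueField θ
  constructor
  · intro y
    obtain ⟨c', hy⟩ := M'.cov y
    obtain ⟨c, rfl, hc⟩ := heq c'
    obtain ⟨A, _, e, -, he, -, -, -, h1⟩ := key c y hy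
    have h2 := h1 hc
    have hne : Nonempty A := by
      by_contra hA
      rw [not_nonempty_iff] at hA
      rw [Order.krullDim_eq_bot] at h2
      exact absurd h2 (by decide)
    obtain ⟨a⟩ := hne
    exact ⟨e a, (he a).1⟩
  · intro y
    obtain ⟨c', hy⟩ := M'.cov y
    have hfy : ∀ z : f.fiber y, f (f.fiberι y z) = y := by
      intro z
      have : f.fiberι y z ∈ f ⁻¹' {y} := by
        rw [← f.range_fiberι y]
        exact ⟨z, rfl⟩
      exact this
    have hsurj : ∀ x : M.X, f x = y → ∃ z : f.fiber y, f.fiberι y z = x := by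
      intro x hx
      have : x ∈ Set.range (f.fiberι y) := by
        rw [f.range_fiberι y]
        exact hx
      exact this
    have hemb := (f.fiberι y).isEmbedding
    apply le_antisymm
    · apply topdim_le
      intro z
      obtain ⟨c, hc, hz⟩ := hcov c' (f.fiberι y z) (by rw [hfy]; exact hy)
      subst hc
      obtain ⟨A, hAo, e, -, he, hex, hle', hA, -⟩ := key c y hy
      have hU : ∀ w : {w : f.fiber y // w ⤳ z}, f.fiberι y w.1 ∈ M.U c := by
        intro w
        exact (w.2.map (f.fiberι y).continuous).mem_open (M.U c).2 hz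
      choose g hg using fun w : {w : f.fiber y // w ⤳ z} => hex _ (hU w) (hfy w.1)
      refine ⟨A, hAo, g, ?_, hA⟩
      intro w w' h1 h2
      refine lt_of_le_of_ne (hle' _ _ ?_) ?_
      · rw [hg, hg]
        exact h1.map (f.fiberι y).continuous
      · intro h3
        have h5 : f.fiberι y w.1 = f.fiberι y w'.1 := by rw [← hg w, ← hg w', h3]
        exact h2 (Subtype.ext (hemb.injective h5))
    · obtain ⟨c, rfl, hc⟩ := heq c'
      obtain ⟨A, _, e, he1, he, -, -, -, hA⟩ := key c y hy
      rw [← hA hc]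
      choose g hg using fun a : A => hsurj (e a) (he a).1
      refine le_topdim A g ?_
      intro a b hab
      have h1 := he1 a b hab
      constructor
      · rw [← hemb.isInducing.specializes_iff, hg, hg]
        exact h1.1
      · intro h3
        apply h1.2
        rw [← hg, ← hg, h3]

end FCB
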