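import Pool.Agent.H30.FCB.StB

open AlgebraicGeometry CategoryTheory

namespace FCB

namespace LINE

variable {X : Scheme.{0}} [IsIntegral X] [IsLocallyNoetherian X]

lemma ord_one (x : X) : Scheme.ord (1 : X.functionField) x = 0 := by
  have h := Scheme.ord_mul (X := X) (x := x) (f := 1) (g := 1) one_ne_zero one_ne_zero
  rw [mul_one] at h
  omega

lemma ord_inv (x : X) (f : X.functionField) (hf : f ≠ 0) :
    Scheme.ord f⁻¹ x = - Scheme.ord f x := by
  have h := Scheme.ord_mul (X := X) (x := x) (f := f) (g := f⁻¹) hf (inv_ne_zero hf)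
  rw [mul_inv_cancel₀ hf, ord_one] at h
  omega

lemma ord_pow (x : X) (f : X.functionField) (hf : f ≠ 0) (n : ℕ) :
    Scheme.ord (f ^ n) x = n * Scheme.ord f x := by
  induction n with
  | zero => simp [ord_one]
  | succ n ih =>
    rw [pow_succ, Scheme.ord_mul (pow_ne_zero n hf) hf, ih]
    push_cast
    ring

lemma refl (D : WeilDiv X) : LinEquiv D D :=
  ⟨1, one_ne_zero, fun p => by rw [ord_one, add_zero]⟩

lemma symm (D E : WeilDiv X) (h : LinEquiv D E) : LinEquiv E D := by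
  obtain ⟨f, hf, h⟩ := h
  exact ⟨f⁻¹, inv_ne_zero hf, fun p => by rw [ord_inv _ _ hf, h]; ring⟩

lemma trans (D E F : WeilDiv X) (h : LinEquiv D E) (h' : LinEquiv E F) : LinEquiv D F := by
  obtain ⟨f, hf, h⟩ := h
  obtain ⟨g, hg, h'⟩ := h'
  exact ⟨f * g, mul_ne_zero hf hg, fun p => by rw [Scheme.ord_mul hf hg, h', h]; ring⟩

lemma smul (D E : WeilDiv X) (h : LinEquiv D E) (n : ℕ) : LinEquiv (n • D) (n • E) := by
  obtain ⟨f, hf, h⟩ := h
  refine ⟨f ^ n, pow_ne_zero n hf, fun p => ?_⟩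
  rw [ord_pow _ _ hf]
  simp only [Finsupp.smul_apply, h, nsmul_eq_mul]
  ring

end LINE

open LINE in
theorem line : S_LINE := by
  intro X _ _
  refine ⟨refl, symm, trans, ?_, ?_, ?_⟩
  · rintro D E D' E' ⟨f, hf, h⟩ ⟨g, hg, h'⟩
    refine ⟨f * g, mul_ne_zero hf hg, fun p => ?_⟩
    rw [Scheme.ord_mul hf hg, Finsupp.add_apply, Finsupp.add_apply, h, h']
    ring
  · rintro D E ⟨f, hf, h⟩
    refine ⟨f⁻¹, inv_ne_zero hf, fun p => ?_⟩
    rw [ord_inv _ _ hf, Finsupp.neg_apply, Finsupp.neg_apply, h]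
    ring
  · intro D E h hD x
    obtain ⟨n, E', U, hn, hE', h0, hU, hx, hy⟩ := hD x
    exact ⟨n, E', U, hn, trans _ _ _ (smul _ _ (symm _ _ h) n) hE', h0, hU, hx, hy⟩

end FCB
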