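import Pool.Agent.H30.FCB.StB
import Pool.Agent.H30.FCB.Basic

open AlgebraicGeometry CategoryTheory

namespace FCB

theorem picn (hAMP : S_AMP) (hCONE : S_CONE) (hLINE : S_LINE) : S_PICN := by
  intro R ι C r _ _ _ _ _ _ _ D hD M K c ε hε
  have hker : numTriv M.X = K.cls.ker := by
    apply le_antisymm
    · intro E hE
      rw [AddMonoidHom.mem_ker]
      obtain ⟨H, hH⟩ := K.surj D.L
      have hHa : IsAmple H := hAMP R ι C r D hD M K H hH
      have h1 : ∀ (m : ℤ) (j : ι), 0 ≤ D.σ c (D.L) j + m * D.σ c (K.cls E) j := by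
        intro m j
        have h2 : m • E ∈ numTriv M.X := AddSubgroup.zsmul_mem _ hE m
        have h3 : IsAmple (H + m • E) := (h2 H hHa).1
        have h4 := hCONE R ι C r D hD M K c ε hε _ h3 j
        rw [map_add, map_zsmul, hH, map_add, map_zsmul] at h4
        simpa using h4
      have h5 : D.σ c (K.cls E) = 0 := by
        funext j
        have ha := h1 (-(D.σ c D.L j + 1)) j
        have hb := h1 (D.σ c D.L j + 1) j
        have hc := h1 0 j
        rw [zero_mul, add_zero] at hc
        rw [Pi.zero_apply]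
        rcases lt_trichotomy (D.σ c (K.cls E) j) 0 with h | h | h
        · nlinarith
        · exact h
        · nlinarith
      rw [← hD.σ_wt c (K.cls E), h5, D.wtZ_zero]
    · intro E hE
      rw [AddMonoidHom.mem_ker] at hE
      intro H hH
      have hl := (hLINE M.X).2.2.2.2.2
      refine ⟨hl H _ ?_ hH, hl H _ ?_ hH⟩
      · rw [K.ker, map_add, hE, add_zero]
      · rw [K.ker, map_sub, hE, sub_zero]
  have e : (WeilDiv M.X ⧸ numTriv M.X) ≃+ (Fin r → ℤ) :=
    (QuotientAddGroup.quotientAddEquivOfEq hker).trans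
      (QuotientAddGroup.quotientKerEquivOfSurjective K.cls K.surj)
  rw [picardNumber, LinearEquiv.finrank_eq e.toIntLinearEquiv]
  simp

end FCB
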